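import Pool.Agent.Lib.J4c.P.J_ratio
import Pool.Agent.Lib.J4c.P.J_rec
import Pool.Agent.Lib.J4c.P.J_sigma
import Pool.Agent.Lib.J4c.P.J_sum
import Pool.Agent.Lib.J4c.P.J_unique
import Pool.Agent.Lib.J4c.P.J_zero
import Pool.Agent.Lib.J4c.P.PosJ_sigma
import Pool.Agent.Lib.J4c.P.be_add
import Pool.Agent.Lib.J4c.P.coord
import Pool.Agent.Lib.J4c.P.coords
import Pool.Agent.Lib.J4c.P.final_one
import Pool.Agent.Lib.J4c.P.gb_vp
import Pool.Agent.Lib.J4c.P.gb_zero
import Pool.Agent.Lib.J4c.P.good_A
import Pool.Agent.Lib.J4c.P.good_B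
import Pool.Agent.Lib.J4c.P.good_C
import Pool.Agent.Lib.J4c.P.good_D
import Pool.Agent.Lib.J4c.P.good_exc
import Pool.Agent.Lib.J4c.P.good_of_vec
import Pool.Agent.Lib.J4c.P.identity
import Pool.Agent.Lib.J4c.P.marks
import Pool.Agent.Lib.J4c.P.vand

/-!
MP_4c1f79_al: all numerical pieces without hypotheses.
-/

set_option autoImplicit false

namespace J4c

theorem c_J_zero : S_J_zero := p_J_zero
theorem c_J_rec : S_J_rec := p_J_rec
theorem c_J_ratio : S_J_ratio := p_J_ratio c_J_zero c_J_rec
theorem c_J_unique : S_J_unique := p_J_unique c_J_zero c_J_rec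
theorem c_J_sum : S_J_sum := p_J_sum c_J_rec
theorem c_J_sigma : S_J_sigma := p_J_sigma c_J_unique c_J_sum
theorem c_PosJ_sigma : S_PosJ_sigma := p_PosJ_sigma c_J_sigma
theorem c_be_add : S_be_add := p_be_add
theorem c_vand : S_vand := p_vand
theorem c_gb_vp : S_gb_vp := p_gb_vp
theorem c_gb_zero : S_gb_zero := p_gb_zero
theorem c_coord : S_coord := p_coord c_vand c_gb_vp c_gb_zero
theorem c_coords : S_coords := p_coords c_coord
theorem c_final_one : S_final_one := p_final_one c_J_ratio
theorem c_good_of_vec : S_good_of_vec := p_good_of_vec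
theorem c_good_A : S_good_A := p_good_A c_good_of_vec
theorem c_good_B : S_good_B := p_good_B c_good_of_vec
theorem c_good_C : S_good_C := p_good_C c_good_of_vec
theorem c_good_D : S_good_D := p_good_D c_good_of_vec
theorem c_good_exc : S_good_exc := p_good_exc c_good_of_vec
theorem c_identity : S_identity := p_identity c_coords c_J_unique c_be_add
theorem c_marks : S_marks := p_marks

end J4c
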