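import Pool.Agent.Lib.J4c.Asm
import Pool.Agent.Lib.J4c.P.good_of_cf
import Pool.Agent.Lib.J4c.P.pd_scale
import Pool.Agent.Lib.J4c.P.rs_cf
import Pool.Agent.Lib.J4c.P.rs_exp
import Pool.Agent.Lib.J4c.P.rs_final
import Pool.Agent.Lib.J4c.P.rs_form
import Pool.Agent.Lib.J4c.P.rs_mat
import Pool.Agent.Lib.J4c.P.rs_norm
import Pool.Agent.Lib.J4c.P.rs_nrm
import Pool.Agent.Lib.J4c.P.rs_pos

/-!
MP_4c1f79_al: the pieces on root systems without hypotheses.
-/

set_option autoImplicit false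

namespace J4c

theorem c_good_of_cf : S_good_of_cf := p_good_of_cf
theorem c_pd_scale : S_pd_scale := p_pd_scale
theorem c_rs_pos : S_rs_pos := p_rs_pos
theorem c_rs_norm : S_rs_norm := p_rs_norm c_rs_pos
theorem c_rs_cf : S_rs_cf := p_rs_cf c_rs_pos c_rs_norm c_pd_scale
theorem c_rs_exp : S_rs_exp := p_rs_exp
theorem c_rs_mat : S_rs_mat := p_rs_mat c_rs_norm
theorem c_rs_nrm : S_rs_nrm := p_rs_nrm c_rs_norm
theorem c_rs_final : S_rs_final := p_rs_final c_rs_mat c_rs_cf c_rs_nrm c_rs_exp c_good_of_cf c_J_zero c_J_sum c_J_unique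
theorem c_rs_form : S_rs_form := p_rs_form

end J4c
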