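import Pool.Agent.Lib.J4c.Root

/-!
MP_4c1f79_al: forms of root systems, abstractly.
-/

set_option autoImplicit false

namespace J4c

/-- The matrix `b i j = (α_i, α_j)` of a base of a (reduced, crystallographic) root system with an
invariant form whose values on the simple roots are even integers. -/
structure CF {ι : Type} [Fintype ι] (b : ι → ι → ℤ) : Prop where
  symm : ∀ i j, b i j = b j i
  even : ∀ i, 2 ∣ b i i
  pos : ∀ i, 0 < b i i
  dvd : ∀ i j, b i i ∣ 2 * b i j
  nonpos : ∀ i j, i ≠ j → b i j ≤ 0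
  pd : ∀ x : ι → ℚ, x ≠ 0 → 0 < ∑ i, ∑ j, (b i j : ℚ) * x i * x j

/-- `x` and `y` are in the same component. -/
def Lk {ι : Type} (b : ι → ι → ℤ) (x y : ι) : Prop := Relation.ReflTransGen (fun u v => b u v ≠ 0) x y

/-- Connected. -/
def Conn {ι : Type} (b : ι → ι → ℤ) : Prop := ∀ x y, Lk b x y

/-- Every component contains an element of norm `2`. -/
def Nrm {ι : Type} (b : ι → ι → ℤ) : Prop := ∀ x, ∃ y, Lk b x y ∧ b y y = 2

end J4c
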