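import Pool.Agent.Lib.J4c.Asm

/-!
MP_4c1f79_al: from `NumPos` for the irreducible types to `PosJ` for all direct sums.
-/

set_option autoImplicit false

namespace J4c

theorem good_form : ∀ t : DT, GoodForm t.form
  | .A n => c_good_A n
  | .B n => c_good_B n
  | .C n => c_good_C n
  | .D n => c_good_D n
  | .E6 => c_good_exc.1
  | .E7 => c_good_exc.2.1
  | .E8 => c_good_exc.2.2.1
  | .F4 => c_good_exc.2.2.2.1
  | .G2 => c_good_exc.2.2.2.2

theorem posJ_form (h : ∀ t : DT, NumPos t.form) (t : DT) (a : Fin t.rank → ℕ) : PosJ t.form a :=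
  c_final_one t.form (good_form t) (h t) a

theorem posJ_sform (h : ∀ t : DT, NumPos t.form) {r : ℕ} (t : Fin r → DT)
    (a : ((k : Fin r) × Fin (t k).rank) → ℕ) : PosJ (sform t) a :=
  c_PosJ_sigma t (fun k => good_form (t k)) (fun k => posJ_form h (t k)) a

end J4c
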