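import Pool.Agent.Lib.MP_4c1f79_al.StmK
import Pool.Agent.Lib.J4c.CF
import Pool.Agent.Lib.J4c.Main

/-!
MP_4c1f79_al: from positivity for the direct sums of the irreducible types to all forms.
-/

set_option autoImplicit false

namespace J4c

open Pool.Agent.Lib.MP_4c1f79_al

theorem rfk_of_cf {ι : Type} [Fintype ι] (c : ι → ι → ℤ) (h : CF c) (hn : Nrm c) : RFK c where
  symm := h.symm
  even := h.even
  pos := h.pos
  nonpos := h.nonpos
  int := h.dvd
  pd := h.pd
  norm := hn

theorem posJ_of_cf (hK : S_KFI) (hN : ∀ t : DT, NumPos t.form) {ι : Type} [Fintype ι]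
    [DecidableEq ι] (c : ι → ι → ℤ) (h : CF c) (hn : Nrm c) (a : ι → ℕ) : PosJ c a :=
  hK (fun _ t a => posJ_sform hN t a) ι c (rfk_of_cf c h hn) a

end J4c
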