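import Mathlib

/-!
MP_4c1f79_al, numerical part: the recursion defining `J_α` over an arbitrary field, Gaussian
binomials, and the root data.
-/

set_option autoImplicit false
set_option linter.unusedVariables false

namespace J4c

/-! # The recursion -/

variable {ι : Type} [Fintype ι] [DecidableEq ι] {F : Type} [Field F]

/-- `(α, α) / 2` for `α = ∑ a i • α_i`, where `b i j = (α_i, α_j)`. -/
def bq (b : ι → ι → ℤ) (a : ι → ℕ) : ℕ := ((∑ i, ∑ j, b i j * (a i : ℤ) * (a j : ℤ)) / 2).toNat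

/-- `d_i = (α_i, α_i) / 2`. -/
def bd (b : ι → ι → ℤ) (i : ι) : ℕ := (b i i / 2).toNat

/-- `(v)_n = (1 - v) ⋯ (1 - v ^ n)`. -/
def vp (v : F) (n : ℕ) : F := ∏ j ∈ Finset.range n, (1 - v ^ (j + 1))

/-- `(v)_α = ∏ i, ∏ j = 1 .. a i, (1 - v ^ (d_i j))`. -/
def vpm (b : ι → ι → ℤ) (v : F) (a : ι → ℕ) : F := ∏ i, vp (v ^ bd b i) (a i)

/-- The recursion: `J_0 = 1` and, for `a ≠ 0`,
`J_a = (1 - v ^ ((a,a)/2))⁻¹ ∑_{β < a} v ^ ((β,β)/2) / (v)_{a - β} J_β`. -/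
noncomputable def J (b : ι → ι → ℤ) (v : F) : (ι → ℕ) → F :=
  WellFounded.fix (r := fun x y : ι → ℕ => x < y) wellFounded_lt fun a ih =>
    if a = 0 then 1 else
      (1 - v ^ bq b a)⁻¹ * ∑ β ∈ (Finset.Iio a).attach,
        v ^ bq b β.1 / vpm b v (a - β.1) * ih β.1 (Finset.mem_Iio.1 β.2)

/-- `e(a) = ∑ d_i a_i ^ 2 - (a, a) / 2`. -/
def be (b : ι → ι → ℤ) (a : ι → ℕ) : ℕ := (∑ i, bd b i * a i ^ 2) - bq b a

/-- Conditions on the form `b`: symmetric, even on the diagonal and positive there, nonpositive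
off the diagonal, `(a, a) / 2` is positive for `a ≠ 0`. -/
structure GoodForm (b : ι → ι → ℤ) : Prop where
  symm : ∀ i j, b i j = b j i
  even : ∀ i, 2 ∣ b i i
  pos : ∀ i, 0 < b i i
  nonpos : ∀ i j, i ≠ j → b i j ≤ 0
  bq_pos : ∀ a : ι → ℕ, a ≠ 0 → 0 < bq b a

/-- The conclusion of the problem for the form `b` and the vector `a`: `(q)_a ^ 2 J_a` is a
polynomial with nonnegative integer coefficients. -/
def PosJ (b : ι → ι → ℤ) (a : ι → ℕ) : Prop :=
  ∃ P : Polynomial ℕ, vpm b (RatFunc.X : RatFunc ℚ) a ^ 2 * J b (RatFunc.X : RatFunc ℚ) a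
    = algebraMap (Polynomial ℚ) (RatFunc ℚ) (P.map (Nat.castRingHom ℚ))

/-- For every `a` there is a finite set of polynomials with nonnegative integer coefficients such
that for every prime `q` the number `q ^ e(a) N_a(1/q)` is the value at `q` of one of them. -/
def NumPos (b : ι → ι → ℤ) : Prop :=
  ∀ a : ι → ℕ, ∃ S : Finset (Polynomial ℕ), ∀ q : ℕ, q.Prime → ∃ f ∈ S,
    ((f.eval q : ℕ) : ℚ) = (q : ℚ) ^ be b a * (vpm b ((q : ℚ)⁻¹) a ^ 2 * J b ((q : ℚ)⁻¹) a)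

/-! # Gaussian binomials -/

/-- The Gaussian binomial `[n, k]_q` for a natural number `q`, with
`[n + 1, k + 1] = q ^ (k + 1) [n, k + 1] + [n, k]`. -/
def gb (q : ℕ) : ℕ → ℕ → ℕ
  | _, 0 => 1
  | 0, _ + 1 => 0
  | n + 1, k + 1 => q ^ (k + 1) * gb q n (k + 1) + gb q n k

end J4c
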