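import Pool.Agent.Lib.J4c.Root

/-!
MP_4c1f79_al, numerical part: statements of the pieces, with proofs in words.
-/

set_option autoImplicit false
set_option linter.unusedVariables false

namespace J4c

/-! # The recursion -/

/-- Unfold the well-founded recursion (`WellFounded.fix_eq`). -/
def S_J_zero : Prop :=
  ∀ {ι : Type} [Fintype ι] [DecidableEq ι] {F : Type} [Field F] (b : ι → ι → ℤ) (v : F),
    J b v 0 = 1

/-- Unfold the well-founded recursion (`WellFounded.fix_eq`, `Finset.sum_attach`). -/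
def S_J_rec : Prop :=
  ∀ {ι : Type} [Fintype ι] [DecidableEq ι] {F : Type} [Field F] (b : ι → ι → ℤ) (v : F)
    (a : ι → ℕ) (ha : a ≠ 0),
    J b v a = (1 - v ^ bq b a)⁻¹ * ∑ β ∈ Finset.Iio a, v ^ bq b β / vpm b v (a - β) * J b v β

/-- The recursion has a unique solution. Hypotheses: `J_zero`, `J_rec`. Strong induction on `a`
for `<`: split the term `β = a` off (`Finset.Iio_insert`, `vpm b v 0 = 1`), so that
`(1 - v ^ bq b a) * J' a = ∑ β ∈ Iio a, ...`. -/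
def S_J_unique : Prop :=
  ∀ {ι : Type} [Fintype ι] [DecidableEq ι] {F : Type} [Field F] (b : ι → ι → ℤ) (v : F)
    (hv : ∀ a : ι → ℕ, a ≠ 0 → v ^ bq b a ≠ 1) (J' : (ι → ℕ) → F) (h0 : J' 0 = 1)
    (h : ∀ a, a ≠ 0 → J' a = ∑ β ∈ Finset.Iic a, v ^ bq b β / vpm b v (a - β) * J' β),
    ∀ a, J' a = J b v a

/-- Hypotheses: `J_rec`. -/
def S_J_sum : Prop :=
  ∀ {ι : Type} [Fintype ι] [DecidableEq ι] {F : Type} [Field F] (b : ι → ι → ℤ) (v : F)
    (a : ι → ℕ) (ha : a ≠ 0) (hv : v ^ bq b a ≠ 1),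
    J b v a = ∑ β ∈ Finset.Iic a, v ^ bq b β / vpm b v (a - β) * J b v β

/-! # Gaussian binomials and the summation formula -/

/-- Induction on `n`: with `v = 1/q`, `[n, k]_q = q ^ (k (n - k)) (v)_n / ((v)_k (v)_{n-k})`. -/
def S_gb_vp : Prop :=
  ∀ (q : ℕ) (hq : 2 ≤ q) (n k : ℕ) (hk : k ≤ n),
    ((gb q n k : ℕ) : ℚ) = (q : ℚ) ^ (k * (n - k)) * vp ((q : ℚ)⁻¹) n /
      (vp ((q : ℚ)⁻¹) k * vp ((q : ℚ)⁻¹) (n - k))

/-- Induction on `n`. -/
def S_gb_zero : Prop := ∀ (q n k : ℕ) (h : n < k), gb q n k = 0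

/-- A form of the `q`-Vandermonde identity. Let `S m n` be the left side (all `(v)_j ≠ 0`).
Induction on `m` (for all `n`): `(1 - v ^ m) S m n = S (m-1) n + v ^ (m+n) S (m-1) (n+1)` (write
`1 - v ^ m = (1 - v ^ (m-c)) + v ^ (m-c) (1 - v ^ c)` in the term of index `c`; the first part
gives `S (m-1) n`, the second with `c = c' + 1` gives `v ^ (m - c' - 1 + (c'+1) (c'+1+n))` and
`(m - c' - 1) + (c'+1) (c'+1+n) = c' (c' + n + 1) + m + n`), and then
`1 / ((v)_{m-1} (v)_{m-1+n}) + v ^ (m+n) / ((v)_{m-1} (v)_{m+n}) = 1 / ((v)_{m-1} (v)_{m+n})`. -/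
def S_vand : Prop :=
  ∀ {F : Type} [Field F] (v : F) (hv : ∀ j : ℕ, v ^ (j + 1) ≠ 1) (m n : ℕ),
    ∑ c ∈ Finset.range (m + 1), v ^ (c * (c + n)) / (vp v (m - c) * vp v c * vp v (c + n))
      = 1 / (vp v m * vp v (m + n))

/-- One coordinate of the identity. Hypotheses: `vand`, `gb_vp`, `gb_zero`. Let `v = 1/q`. For
`n ≤ a` both sides are equal to `v ^ (n ^ 2) / ((v)_n (v)_{a-n} (v)_a)`: on the left use `gb_vp`
(`q ^ (n (a-n)) = v ^ (- n (a-n))`), on the right the terms `β < n` vanish, put `β = n + c`,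
`β² - n (β - n) = c (c + n) + n²`, and use `vand` with `m = a - n`. For `n > a` both sides
vanish. -/
def S_coord : Prop :=
  ∀ (q : ℕ) (hq : 2 ≤ q) (a n : ℕ),
    ((q : ℚ)⁻¹) ^ (a * n) * (gb q a n : ℚ) / vp ((q : ℚ)⁻¹) a ^ 2
      = ∑ β ∈ Finset.range (a + 1), ((q : ℚ)⁻¹) ^ (β ^ 2) * (gb q β n : ℚ) /
          (vp ((q : ℚ)⁻¹) (a - β) * vp ((q : ℚ)⁻¹) β ^ 2)

/-- The product of `coord` over the coordinates. Hypotheses: `coord`. With `q_i = q ^ (bd b i)`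
(so `(1/q) ^ bd = 1/q_i`, `2 ≤ q_i` as `bd b i > 0`) expand the product of sums
(`Finset.prod_univ_sum`, or `Fintype.piFinset`; `Finset.Iic a` for functions is
`Fintype.piFinset fun i => Finset.Iic (a i)`). -/
def S_coords : Prop :=
  ∀ {ι : Type} [Fintype ι] [DecidableEq ι] (b : ι → ι → ℤ) (hb : GoodForm b) (q : ℕ)
    (hq : 2 ≤ q) (a n : ι → ℕ),
    ((q : ℚ)⁻¹) ^ (∑ i, bd b i * a i * n i) * (∏ i, (gb (q ^ bd b i) (a i) (n i) : ℚ)) /
        vpm b ((q : ℚ)⁻¹) a ^ 2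
      = ∑ β ∈ Finset.Iic a, ((q : ℚ)⁻¹) ^ (∑ i, bd b i * β i ^ 2) *
          (∏ i, (gb (q ^ bd b i) (β i) (n i) : ℚ)) /
          (vpm b ((q : ℚ)⁻¹) (a - β) * vpm b ((q : ℚ)⁻¹) β ^ 2)

/-- `∑ d_i a_i ^ 2 = be b a + bq b a`: the off-diagonal entries are nonpositive, and
`(a,a)/2 = ∑ d_i a_i² + ∑_{i<j} b_ij a_i a_j`. -/
def S_be_add : Prop :=
  ∀ {ι : Type} [Fintype ι] [DecidableEq ι] (b : ι → ι → ℤ) (hb : GoodForm b) (a : ι → ℕ),
    be b a + bq b a = ∑ i, bd b i * a i ^ 2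

/-- The identity, from the two formulas for `A`. Hypotheses: `coords`, `J_unique`, `be_add`.
Put `v = 1/q`, `B n = ∑ N ∈ S n with μ N = n, q^(β N) W n N` (`S a` a finite set outside of which
`W a` vanishes). By `hW` and `hm`: `A a = ∑ n ∈ Iic a, (∏ i, [a_i, n_i]) B n` and
`q ^ (- e a) A a = ∑ n ∈ Iic a, q ^ (- ∑ d_i a_i n_i) (∏ i, [a_i, n_i]) B n` (group the `N ∈ S a`
by `μ N`; if `W a N ≠ 0` then `W (μ N) N ≠ 0`, so `N ∈ S (μ N)`, and `μ N ≤ a`; conversely if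
`N ∈ S n`, `μ N = n ≤ a` and `N ∉ S a` then `W a N = 0`, so `(∏ i, [a_i, n_i]) W n N = 0`). Put
`J' a = v ^ e(a) A a / (v)_a ^ 2`. By `coords`, applied to every `n` and summed with the weights
`B n`, `J' a = ∑ β ∈ Iic a, v ^ (∑ d_i β_i²) A β / ((v)_{a-β} (v)_β²)` and
`∑ d_i β_i² = e(β) + (β,β)/2` by `be_add`. Now `J_unique`. -/
def S_identity : Prop :=
  ∀ {ι : Type} [Fintype ι] [DecidableEq ι] (b : ι → ι → ℤ) (hb : GoodForm b) (q : ℕ)
    (hq : 2 ≤ q) {T : Type} (S : (ι → ℕ) → Finset T) (μ : T → ι → ℕ) (β : T → ℤ)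
    (W : (ι → ℕ) → T → ℚ) (A : (ι → ℕ) → ℚ) (hA0 : A 0 = 1)
    (hS : ∀ a N, W a N ≠ 0 → N ∈ S a) (hm : ∀ a N, W a N ≠ 0 → μ N ≤ a)
    (hW : ∀ a N, W a N = (∏ i, (gb (q ^ bd b i) (a i) (μ N i) : ℚ)) * W (μ N) N)
    (hA1 : ∀ a, A a = ∑ N ∈ S a, (q : ℚ) ^ β N * W a N)
    (hA2 : ∀ a, A a = (q : ℚ) ^ be b a *
      ∑ N ∈ S a, (q : ℚ) ^ (β N - ∑ i, (bd b i * a i * μ N i : ℕ)) * W a N) (a : ι → ℕ),
    A a = (q : ℚ) ^ be b a * (vpm b ((q : ℚ)⁻¹) a ^ 2 * J b ((q : ℚ)⁻¹) a)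

/-- The reduction to the marked values. `κ` indexes the orbits of one kind, `T` is the set of
dimension vectors (functions on a finite set of positions), `p i` the marked position of the
orbit `i` (socle, resp. top), `c i` the counting function of the indecomposable module (by
dimension, resp. by codimension), `Z a` the counting function of the module of type `a`. First, by
induction on `a` (`Z (a + e_i)`), `Z a N ≠ 0` implies `N (p j) ≤ a j` for all `j`. Then induction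
on `a` again: in the sum for `Z (a + e_i) N` the term `N₁ = 0` is `q ^ (d_i n_i) Z a N`,
`n = (N (p j))_j`. If `n_i = 0` all other terms vanish (`N₁ (p i) = 1`). If `n_i > 0`: the other
terms with `c i N₁ ≠ 0` have `n(N - N₁) = n - e_i`, and the same sum for `Z n N = Z ((n - e_i) +
e_i) N` has vanishing term `N₁ = 0` (as `N (p i) > (n - e_i) i`), so
`Z (a + e_i) N = (q^(d_i n_i) [a_i, n_i] + [a_i, n_i - 1]) ∏_{j ≠ i} [a_j, n_j] Z n N`. -/
def S_marks : Prop :=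
  ∀ {κ : Type} [Fintype κ] [DecidableEq κ] {P : Type} [Fintype P] [DecidableEq P] (q : ℕ)
    (hq : 2 ≤ q) (d : κ → ℕ) (p : κ → P) (β : (P → ℕ) → (P → ℕ) → ℤ)
    (hβ : ∀ x, β x 0 = 0) (c : κ → (P → ℕ) → ℚ) (hc0 : ∀ i, c i 0 = 1)
    (hc1 : ∀ i N, c i N ≠ 0 → N ≠ 0 → N (p i) = 1 ∧ ∀ j, j ≠ i → N (p j) = 0)
    (Z : (κ → ℕ) → (P → ℕ) → ℚ) (hZ0 : ∀ N, Z 0 N = if N = 0 then 1 else 0)
    (hZ : ∀ a i N, Z (a + Pi.single i 1) N = ∑ N₁ ∈ Finset.Iic N,
      (q : ℚ) ^ ((d i * (N - N₁) (p i) : ℕ) - β (N - N₁) N₁) * c i N₁ * Z a (N - N₁))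
    (a : κ → ℕ) (N : P → ℕ),
    Z a N = (∏ i, (gb (q ^ d i) (a i) (N (p i)) : ℚ)) * Z (fun i => N (p i)) N

/-! # From the values at primes to the polynomial -/

/-- `J b v a` is a fixed rational function of `v`: strong induction on `a` with `J_rec`
(`D` is a product of factors `1 - X ^ m`, `m ≥ 1`; `bq b a > 0` for `a ≠ 0` and
`bd b i > 0`). Hypotheses: `J_zero`, `J_rec`. -/
def S_J_ratio : Prop :=
  ∀ {ι : Type} [Fintype ι] [DecidableEq ι] (b : ι → ι → ℤ) (hb : GoodForm b) (a : ι → ℕ),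
    ∃ P D : Polynomial ℚ, D.eval 0 = 1 ∧
      (∀ v : ℚ, 0 < v → v < 1 → D.eval v ≠ 0 ∧ J b v a = P.eval v / D.eval v) ∧
      J b (RatFunc.X : RatFunc ℚ) a
        = algebraMap (Polynomial ℚ) (RatFunc ℚ) P / algebraMap (Polynomial ℚ) (RatFunc ℚ) D

/-- Hypotheses: `J_ratio`. By the pigeonhole principle one `f` of the finite set works for
infinitely many primes `q`. With `P, D` from `J_ratio` and `W` the polynomial `(X)_a ^ 2`,
`e = be b a`: `f(q) D(1/q) = q ^ e W(1/q) P(1/q)` for infinitely many `q`; multiplying with a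
power of `q` gives an identity of polynomials, so in `ℚ(X)`: with `n = natDegree f` and
`g = f.reverse`, `X ^ n f(1/X) = g(X)`, we have `X ^ n W P = X ^ e g D`. As `D(0) = 1`, and
`g(0) ≠ 0` unless `f = 0` (then `P W = 0`, take `0`), comparing the orders at `0` gives `n ≤ e`,
and `W P / D = X ^ (e - n) g`, with coefficients in `ℕ`. -/
def S_final_one : Prop :=
  ∀ {ι : Type} [Fintype ι] [DecidableEq ι] (b : ι → ι → ℤ) (hb : GoodForm b) (hN : NumPos b)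
    (a : ι → ℕ), PosJ b a

/-! # Direct sums and change of labels -/

/-- `bq`, `bd`, `vpm`, `J` of the sum. Hypotheses: `J_unique`, `J_sum`. For `a` on the sigma type
let `J' a = ∏ k, J (form (t k)) v (fun i => a ⟨k, i⟩)`. `bq` is additive, `vpm` multiplicative, and
the sum over `Finset.Iic a` factors (`Finset.prod_univ_sum` and the equivalence
`(Σ k, Fin (rank k)) → ℕ ≃ ∀ k, Fin (rank k) → ℕ`). For a factor with `a_k = 0` the sum is `1`. -/
def S_J_sigma : Prop :=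
  ∀ {r : ℕ} (t : Fin r → DT) (hg : ∀ k, GoodForm (t k).form) {F : Type} [Field F] (v : F)
    (hv : ∀ j : ℕ, v ^ (j + 1) ≠ 1) (a : ((k : Fin r) × Fin (t k).rank) → ℕ),
    J (sform t) v a = ∏ k, J (t k).form v (fun i => a ⟨k, i⟩) ∧
      vpm (sform t) v a = ∏ k, vpm (t k).form v (fun i => a ⟨k, i⟩)

/-- Hypotheses: `J_sigma`. -/
def S_PosJ_sigma : Prop :=
  ∀ {r : ℕ} (t : Fin r → DT) (hg : ∀ k, GoodForm (t k).form)
    (h : ∀ k (a : Fin (t k).rank → ℕ), PosJ (t k).form a)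
    (a : ((k : Fin r) × Fin (t k).rank) → ℕ), PosJ (sform t) a

/-! # The forms of the root systems -/

/-- A criterion: `∑_ij b_ij a_i a_j = ∑_i (a_i² / v_i) (∑_j b_ij v_j) + ½ ∑_{i≠j} (-b_ij) v_i v_j
(a_i / v_i - a_j / v_j)²`, positive for `a ≠ 0`, and even (the diagonal is even, the form is
symmetric). -/
def S_good_of_vec : Prop :=
  ∀ {ι : Type} [Fintype ι] [DecidableEq ι] (b : ι → ι → ℤ) (symm : ∀ i j, b i j = b j i)
    (even : ∀ i, 2 ∣ b i i) (pos : ∀ i, 0 < b i i) (nonpos : ∀ i j, i ≠ j → b i j ≤ 0)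
    (v : ι → ℤ) (hv : ∀ i, 0 < v i) (hbv : ∀ i, 0 < ∑ j, b i j * v j),
    GoodForm b

/-- Hypotheses: `good_of_vec`. With the index `i = 0, ..., n` of `Fin (n + 1)`:
`v_i = (i + 1) (n + 1 - i)`, `∑_j b_ij v_j = 2`. -/
def S_good_A : Prop := ∀ n, GoodForm (DT.A n).form

/-- Hypotheses: `good_of_vec`. Rank `N = n + 2`, `i = 0, ..., N - 1`:
`v_i = (i + 1) (2 N - i)`, `∑_j b_ij v_j = 4`. -/
def S_good_B : Prop := ∀ n, GoodForm (DT.B n).form

/-- Hypotheses: `good_of_vec`. Rank `N = n + 3`, `i = 0, ..., N - 1`: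
`v_i = 2 (i + 1) (2 N - i)` for `i < N - 1` and `v_(N-1) = N (N + 1)`. -/
def S_good_C : Prop := ∀ n, GoodForm (DT.C n).form

/-- Hypotheses: `good_of_vec`. Rank `N = n + 4`, `i = 0, ..., N - 1`:
`v_i = 2 (i + 1) (2 N - i - 2)` for `i < N - 2` and `v_(N-2) = v_(N-1) = N (N - 1)`. -/
def S_good_D : Prop := ∀ n, GoodForm (DT.D n).form

/-- Hypotheses: `good_of_vec`. The vectors (sums of the positive roots): `E6`: 16, 22, 30, 42, 30,
16; `E7`: 34, 49, 66, 96, 75, 52, 27; `E8`: 92, 136, 182, 270, 220, 168, 114, 58;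
`F4`: 16, 30, 42, 22; `G2`: 6, 10. -/
def S_good_exc : Prop :=
  GoodForm DT.E6.form ∧ GoodForm DT.E7.form ∧ GoodForm DT.E8.form ∧ GoodForm DT.F4.form ∧
    GoodForm DT.G2.form

end J4c
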