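import Pool.Agent.Lib.J4c.CF

/-!
MP_4c1f79_al: the rational functions `J_α` of a root system (in the sense of Mathlib).
-/

set_option autoImplicit false
set_option linter.unusedVariables false

namespace J4c

open Polynomial

variable {ι M N : Type} [AddCommGroup M] [Module ℚ M] [AddCommGroup N] [Module ℚ N]
  {P : RootPairing ι ℚ M N}

/-- The element `∑ a_i α_i` of the positive cone of the root lattice. -/
def rvec (b : P.Base) (a : b.support → ℕ) : M := ∑ i : b.support, (a i : ℚ) • P.root i

/-- The root `γ_i` is short: no root which is not orthogonal to it is strictly shorter. -/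
def Short (B : P.InvariantForm) (i : ι) : Prop :=
  ∀ j, P.pairing i j ≠ 0 →
    B.form (P.root i) (P.root i) ≤ B.form (P.root j) (P.root j)

/-- `(α, α) / 2` as a natural number, `α = ∑ a_i α_i`. -/
noncomputable def hf (b : P.Base) (B : P.InvariantForm) (a : b.support → ℕ) : ℕ :=
  ⌊B.form (rvec b a) (rvec b a) / 2⌋₊

/-- `d_i = (α_i, α_i) / 2` as a natural number. -/
noncomputable def rd (b : P.Base) (B : P.InvariantForm) (i : b.support) : ℕ :=
  ⌊B.form (P.root i) (P.root i) / 2⌋₊

/-- `(q)_α = ∏ i, ∏ j = 1 .. a_i, (1 - q ^ (d_i j))`. -/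
noncomputable def rq (b : P.Base) (B : P.InvariantForm) (a : b.support → ℕ) : RatFunc ℚ :=
  ∏ i : b.support, ∏ j ∈ Finset.range (a i), (1 - RatFunc.X ^ (rd b B i * (j + 1)))

open Classical in
/-- `J` is the family of the rational functions `J_α`: `J_0 = 1` and
`J_α = ∑_{0 ≤ β ≤ α} q ^ ((β, β) / 2) / (q)_{α - β} J_β`. -/
structure IsJ (b : P.Base) (B : P.InvariantForm) (J : (b.support → ℕ) → RatFunc ℚ) : Prop where
  zero : J 0 = 1
  eq : ∀ a, J a = ∑ β ∈ Finset.Iic a, RatFunc.X ^ hf b B β / rq b B (a - β) * J β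

/-- The invariant form is normalised: every short root has norm `2`. -/
def Nmd (B : P.InvariantForm) : Prop := ∀ i, Short B i → B.form (P.root i) (P.root i) = 2

end J4c
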