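import Pool.Agent.Lib.J4c.RSStm

/-!
MP_4c1f79_al: uniqueness of the family `J`.
-/

set_option autoImplicit false
set_option linter.unusedVariables false

namespace J4c

open Polynomial

theorem rs_unique_X_pow_ne (n : ℕ) (hn : n ≠ 0) : (RatFunc.X : RatFunc ℚ) ^ n ≠ 1 := by
  intro h
  have h1 : algebraMap ℚ[X] (RatFunc ℚ) (X ^ n) = algebraMap ℚ[X] (RatFunc ℚ) 1 := by
    rw [map_pow, RatFunc.algebraMap_X, h, map_one]
  have h2 : (X ^ n : ℚ[X]) = 1 := RatFunc.algebraMap_injective ℚ h1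
  have h3 := congrArg Polynomial.natDegree h2
  rw [Polynomial.natDegree_X_pow, Polynomial.natDegree_one] at h3
  exact hn h3

theorem rs_unique (h1 : S_rs_mat) (h2 : S_rs_cf) (h4 : S_rs_exp)
    (h5 : S_good_of_cf) (h8 : S_J_unique)
    {ι M N : Type} [Finite ι] [AddCommGroup M] [Module ℚ M] [AddCommGroup N] [Module ℚ N]
    (P : RootPairing ι ℚ M N) [P.IsRootSystem] [P.IsCrystallographic] [P.IsReduced]
    (b : P.Base) (B : P.InvariantForm) (hB : Nmd B)
    (J' J'' : (b.support → ℕ) → RatFunc ℚ) (hJ' : IsJ b B J') (hJ'' : IsJ b B J'') :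
    J' = J'' := by
  classical
  obtain ⟨c, hc⟩ := h1 P b B hB
  have hcf : CF c := h2 P b B hB c hc
  obtain ⟨e1, e2⟩ := h4 P b B c hc hcf
  have hg : GoodForm c := h5 c hcf
  have hq : ∀ a, rq b B a = vpm c (RatFunc.X : RatFunc ℚ) a := by
    intro a
    unfold rq vpm vp
    refine Finset.prod_congr rfl fun i _ => Finset.prod_congr rfl fun j _ => ?_
    rw [(e2 i).1, pow_mul]
  have hv : ∀ a : b.support → ℕ, a ≠ 0 → (RatFunc.X : RatFunc ℚ) ^ bq c a ≠ 1 :=
    fun a ha => rs_unique_X_pow_ne _ (hg.bq_pos a ha).ne'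
  have key : ∀ K : (b.support → ℕ) → RatFunc ℚ, IsJ b B K → ∀ a, K a = J c RatFunc.X a := by
    intro K hK
    refine h8 c _ hv K hK.zero fun a ha => ?_
    rw [hK.eq a]
    refine Finset.sum_congr ?_ fun β _ => ?_
    · congr
    · rw [(e1 β).1, hq]
  funext a
  rw [key J' hJ' a, key J'' hJ'' a]

end J4c
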