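import Pool.Agent.Lib.J4c.RS

/-!
MP_4c1f79_al: existence of the normalised invariant form.
-/

set_option autoImplicit false
set_option linter.unusedVariables false

namespace J4c

/-- Every root system has a normalised invariant form. Let `ρ i = ∑ j, P.pairing i j ^ 2 > 0` (this
is `P.RootForm (P.root i) (P.root i)`), `N i` the set of the roots `j` with `P.pairing i j ≠ 0`
(`i ∈ N i`), `m i = min_{j ∈ N i} ρ j > 0` and `w i = 2 / m i`. Claim: if `P.pairing i i' ≠ 0` then
`m i = m i'`. Proof: let `j ∈ N i` with `ρ j = m i`. If `j ∈ N i'` then `m i' ≤ m i`. Otherwise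
`P.pairing j i' = 0`, and for `j' = P.reflectionPerm i j`, `P.root j' = P.root j - P.pairing j i •
P.root i`, so `P.pairing j' i' = - P.pairing j i * P.pairing i i' ≠ 0`, and `ρ j' = ρ j`
(reflections permute the roots), so again `m i' ≤ m i`; now exchange `i` and `i'`. The form is
`B x y = ∑ i, w i * P.coroot' i x * P.coroot' i y`. It is symmetric and invariant under the
reflections (`w (P.reflectionPerm k i) = w i`: if `P.pairing i k = 0` the two roots are equal,
otherwise `k` is not orthogonal to either of them, or use directly that
`ρ` and orthogonality are preserved by reflections), and `B (root i, root i) = w i * ρ i`, as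
`w j = w i` for all `j` with `P.pairing i j ≠ 0`. If `i` is short in the sense of `Short B`, then
`w i ρ i ≤ w j ρ j = w i ρ j` for all `j ∈ N i`, so `ρ i = m i` and `B (root i, root i) = 2`. -/
def S_rs_form : Prop :=
  ∀ {ι M N : Type} [Finite ι] [AddCommGroup M] [Module ℚ M] [AddCommGroup N] [Module ℚ N]
    (P : RootPairing ι ℚ M N) [P.IsRootSystem] [P.IsCrystallographic] [P.IsReduced],
    ∃ B : P.InvariantForm, Nmd B

end J4c
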