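import Pool.Agent.Lib.J4c.Conv
import Pool.Agent.Lib.J4c.RSUniq
import Pool.Agent.Lib.J4c.RSX

/-!
MP_4c1f79_al: the theorem for root systems of Mathlib, from `S_KFI` and `NumPos` for the types.
-/

set_option autoImplicit false
set_option linter.unusedVariables false

namespace J4c

open Polynomial

theorem rs_all (hN : ∀ t : DT, NumPos t.form) (hK : Pool.Agent.Lib.MP_4c1f79_al.S_KFI)
    (hF : S_rs_form) (hR : S_rs_final) (h1 : S_rs_mat) (h2 : S_rs_cf) (h4 : S_rs_exp)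
    (h5 : S_good_of_cf) :
    ∀ {ι M N : Type} [Finite ι] [AddCommGroup M] [Module ℚ M] [AddCommGroup N] [Module ℚ N]
      (P : RootPairing ι ℚ M N) [P.IsRootSystem] [P.IsCrystallographic] [P.IsReduced]
      (b : P.Base),
      (∃ B : P.InvariantForm, Nmd B) ∧
      ∀ B : P.InvariantForm, Nmd B →
        (∀ a, (hf b B a : ℚ) = B.form (rvec b a) (rvec b a) / 2) ∧
        (∀ i : b.support, (rd b B i : ℚ) = B.form (P.root i) (P.root i) / 2) ∧
        (∃! J, IsJ b B J) ∧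
        ∀ J, IsJ b B J → ∀ a, ∃ f : ℕ[X],
          rq b B a ^ 2 * J a = algebraMap ℚ[X] (RatFunc ℚ) (f.map (Nat.castRingHom ℚ)) := by
  intro ι M N _ _ _ _ _ P _ _ _ b
  refine ⟨hF P, fun B hB => ?_⟩
  obtain ⟨r1, r2, ⟨J₀, r3⟩, r4⟩ :=
    hR (fun c hc hn a => posJ_of_cf hK hN c hc hn a) P b B hB
  exact ⟨r1, r2, ⟨J₀, r3, fun J' hJ' => rs_unique h1 h2 h4 h5 c_J_unique P b B hB J' J₀ hJ' r3⟩, r4⟩

end J4c
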