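import Pool.Agent.Lib.J4c.RS
import Pool.Agent.Lib.J4c.NumStm

/-!
MP_4c1f79_al: from root systems of Mathlib to the matrix `b i j = (α_i, α_j)`: statements.
-/

set_option autoImplicit false
set_option linter.unusedVariables false

namespace J4c

open Polynomial

/-- All roots have positive norm. Mathlib: `RootPairing.InvariantForm.two_mul_apply_root_root`,
`pairing_mul_eq_pairing_mul_swap`, and `P.pairing i j` and `P.pairing j i` are integers with
product `≥ 0`, zero only simultaneously (`RootPairing.pairing_eq_zero_iff`), so the norms of two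
roots which are not orthogonal have the same sign. Let `i` be a root, and let `j` have the smallest
norm among the (finitely many) roots which are connected to `i` by a chain of roots with
`pairing ≠ 0` for consecutive ones. Then `j` is short, so its norm is `2 > 0`, and by the remark
the norm of `i` is positive. -/
def S_rs_pos : Prop :=
  ∀ {ι M N : Type} [Finite ι] [AddCommGroup M] [Module ℚ M] [AddCommGroup N] [Module ℚ N]
    (P : RootPairing ι ℚ M N) [P.IsRootSystem] [P.IsCrystallographic] [P.IsReduced]
    (B : P.InvariantForm) (hB : Nmd B) (i : ι), 0 < B.form (P.root i) (P.root i)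

/-- The norm of a root is `2`, `4` or `6`; more precisely, a root `i` which is not short is not
orthogonal to some root `j` of norm `2`, and its norm is `2 n`, `n = |P.pairing i j| ∈ {2, 3}`.
Hypotheses: `rs_pos`. Proof: if `i` is short its norm is `2`. Otherwise there is `k` with
`P.pairing i k ≠ 0` and smaller norm. By `pairing_mul_eq_pairing_mul_swap` and
`RootPairing.pairingIn_pairingIn_mem_set_of_isCrystallographic` (and reducedness: the product of
the pairings is not `4` because `i ≠ ± k`) the quotient (norm of `i`) / (norm of `k`) is `2` or `3`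
and `P.pairing k i = ± 1`. Claim: `k` is short, so it has norm `2`. Otherwise there is `l`, not
orthogonal to `k`, with (norm of `k`) `≥ 2 *` (norm of `l`), so (norm of `i`) `≥ 4 *` (norm of
`l`). If `l` is not orthogonal to `i`, this contradicts the quotient `≤ 3`. If it is orthogonal, let
`l'` be the root `s_k (l) = l - P.pairing l k • k` (`P.reflectionPerm k l`): same norm as `l`, and
`B (l', i) = - P.pairing l k * B (k, i) ≠ 0`, the same contradiction. -/
def S_rs_norm : Prop :=
  ∀ {ι M N : Type} [Finite ι] [AddCommGroup M] [Module ℚ M] [AddCommGroup N] [Module ℚ N]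
    (P : RootPairing ι ℚ M N) [P.IsRootSystem] [P.IsCrystallographic] [P.IsReduced]
    (B : P.InvariantForm) (hB : Nmd B) (i : ι),
    (∃ n : ℕ, (n = 1 ∨ n = 2 ∨ n = 3) ∧ B.form (P.root i) (P.root i) = 2 * n) ∧
    ∃ j : ι, P.pairing i j ≠ 0 ∧ B.form (P.root j) (P.root j) = 2

/-- The matrix has integral entries. Hypotheses: `rs_norm`.
`B (i, j) = P.pairing i j * (B (j, j) / 2)`. -/
def S_rs_mat : Prop :=
  ∀ {ι M N : Type} [Finite ι] [AddCommGroup M] [Module ℚ M] [AddCommGroup N] [Module ℚ N]
    (P : RootPairing ι ℚ M N) [P.IsRootSystem] [P.IsCrystallographic] [P.IsReduced]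
    (b : P.Base) (B : P.InvariantForm) (hB : Nmd B),
    ∃ c : b.support → b.support → ℤ, ∀ i j : b.support,
      (c i j : ℚ) = B.form (P.root i) (P.root j)

/-- A lemma on positive definite matrices. Proof: since `A i j = 0` when `ρ i ≠ ρ j`, the left side
is the sum over the values `t` of `ρ` of `t` times the value of the form at the restriction of
`x` to the set `ρ = t` (extended by zero); all these are `≥ 0` and one of them is positive. -/
def S_pd_scale : Prop :=
  ∀ {κ : Type} [Fintype κ] (A : κ → κ → ℚ)
    (hA : ∀ x : κ → ℚ, x ≠ 0 → 0 < ∑ i, ∑ j, A i j * x i * x j) (ρ : κ → ℚ)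
    (hρ : ∀ i, 0 < ρ i) (h : ∀ i j, A i j ≠ 0 → ρ i = ρ j) (x : κ → ℚ) (hx : x ≠ 0),
    0 < ∑ i, ∑ j, A i j * ρ j * x i * x j

/-- Hypotheses: `rs_pos`, `rs_norm`, `pd_scale`. `symm` from `B.symm`; `even`, `pos` from `rs_norm`;
`dvd` from `two_mul_apply_root_root` and integrality of `P.pairing`; `nonpos` from
`RootPairing.Base.pairingIn_le_zero_of_ne`; `pd`: by
`RootPairing.Base.exists_cartanMatrix_mul_diagaonal_posDef` the matrix `A i j = C i j * d j`
(`C` the Cartan matrix) is positive definite over the integers, hence (clearing denominators) over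
the rationals, and `c i j = C i j * B (j, j) / 2 = A i j * ρ j` with `ρ j = B (j, j) / (2 d j)`;
if `C i j ≠ 0` then `ρ i = ρ j` because both matrices are symmetric; use `pd_scale`. -/
def S_rs_cf : Prop :=
  ∀ {ι M N : Type} [Finite ι] [AddCommGroup M] [Module ℚ M] [AddCommGroup N] [Module ℚ N]
    (P : RootPairing ι ℚ M N) [P.IsRootSystem] [P.IsCrystallographic] [P.IsReduced]
    (b : P.Base) (B : P.InvariantForm) (hB : Nmd B) (c : b.support → b.support → ℤ)
    (hc : ∀ i j : b.support, (c i j : ℚ) = B.form (P.root i) (P.root j)), CF c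

/-- Hypotheses: `rs_norm`. Claim: for every root `i` there is a simple root `k` with the same norm
such that `P.root i` is in the span of the simple roots `l` with `Lk c k l`. Induction with
`RootPairing.Base.induction_reflect` (as in the proof of
`RootPairing.Base.apply_mem_range_root_of_cartanMatrixEq`): for a simple reflection `s_l` applied
to the root `i`: if `Lk c k l`, then `s_l (i) = i - P.pairing i l • l` is in the same span; otherwise
`l` is orthogonal to all simple roots `l'` with `Lk c k l'` (`c l' l = 0`), so `P.pairing i l = 0`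
and `s_l (i) = i`. Reflections preserve the norm. Now let `x` be simple. By `rs_norm` there is a
root `j` of norm `2` with `P.pairing x j ≠ 0`, i.e. not orthogonal to `x`; let `k` be as in the
claim for `j`. Since `P.root j` is in the span of the simple roots linked to `k` and is not
orthogonal to `x`, some `l` with `Lk c k l` is not orthogonal to `x`, so `Lk c x k` (the relation is
symmetric since `c` is). -/
def S_rs_nrm : Prop :=
  ∀ {ι M N : Type} [Finite ι] [AddCommGroup M] [Module ℚ M] [AddCommGroup N] [Module ℚ N]
    (P : RootPairing ι ℚ M N) [P.IsRootSystem] [P.IsCrystallographic] [P.IsReduced]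
    (b : P.Base) (B : P.InvariantForm) (hB : Nmd B) (c : b.support → b.support → ℤ)
    (hc : ∀ i j : b.support, (c i j : ℚ) = B.form (P.root i) (P.root j)), Nrm c

/-- Translation of the exponents. Expand `B (∑ a_i α_i, ∑ a_j α_j)`; the sum
`∑ c i j a_i a_j` is even and `≥ 0` (`CF`: symmetric with even diagonal, positive definite), so
`bq c a` is half of it; `Nat.floor` of a natural number. -/
def S_rs_exp : Prop :=
  ∀ {ι M N : Type} [Finite ι] [AddCommGroup M] [Module ℚ M] [AddCommGroup N] [Module ℚ N]
    (P : RootPairing ι ℚ M N) (b : P.Base) (B : P.InvariantForm)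
    (c : b.support → b.support → ℤ)
    (hc : ∀ i j : b.support, (c i j : ℚ) = B.form (P.root i) (P.root j)) (hcf : CF c),
    (∀ a, hf b B a = bq c a ∧ ((hf b B a : ℕ) : ℚ) = B.form (rvec b a) (rvec b a) / 2) ∧
    ∀ i, rd b B i = bd c i ∧ ((rd b B i : ℕ) : ℚ) = B.form (P.root i) (P.root i) / 2

/-- `CF` implies `GoodForm`. -/
def S_good_of_cf : Prop :=
  ∀ {ι : Type} [Fintype ι] [DecidableEq ι] (b : ι → ι → ℤ) (hb : CF b), GoodForm b

/-- The final theorem for root systems, from positivity for all forms. Hypotheses: `rs_mat`,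
`rs_cf`, `rs_nrm`, `rs_exp`, `good_of_cf`, `J_zero`, `J_sum`, `J_unique`. With `c` from `rs_mat`:
`rq b B a = vpm c X a`, `J c X` is a solution of the recursion (`J_zero`, `J_sum`: `X ^ n ≠ 1`
in `RatFunc ℚ` for `n > 0`, and `bq c a > 0` for `a ≠ 0` by `good_of_cf`), every solution is equal
to it (`J_unique`). The equation of `IsJ` for `a = 0` reads `J 0 = J 0`. Decidability instances:
use `convert` or `Subsingleton.elim` for `Finset.Iic`. -/
def S_rs_final : Prop :=
  ∀ (hpos : ∀ {κ : Type} [Fintype κ] [DecidableEq κ] (c : κ → κ → ℤ), CF c → Nrm c →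
      ∀ a, PosJ c a)
    {ι M N : Type} [Finite ι] [AddCommGroup M] [Module ℚ M] [AddCommGroup N] [Module ℚ N]
    (P : RootPairing ι ℚ M N) [P.IsRootSystem] [P.IsCrystallographic] [P.IsReduced]
    (b : P.Base) (B : P.InvariantForm) (hB : Nmd B),
    (∀ a, ((hf b B a : ℕ) : ℚ) = B.form (rvec b a) (rvec b a) / 2) ∧
    (∀ i : b.support, ((rd b B i : ℕ) : ℚ) = B.form (P.root i) (P.root i) / 2) ∧
    (∃ J, IsJ b B J) ∧
    ∀ J, IsJ b B J → ∀ a, ∃ f : ℕ[X],
      rq b B a ^ 2 * J a = algebraMap ℚ[X] (RatFunc ℚ) (f.map (Nat.castRingHom ℚ))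

end J4c
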