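import Pool.Agent.Lib.J4c.Num

/-!
MP_4c1f79_al: the root data (Cartan matrices of Mathlib, with the lengths normalised so that
short roots have norm `2`) and finite direct sums of them.
-/

set_option autoImplicit false
set_option linter.unusedVariables false

namespace J4c

/-- The irreducible root systems: `A n` stands for `A_{n+1}`, `B n` for `B_{n+2}`, `C n` for
`C_{n+3}`, `D n` for `D_{n+4}`. -/
inductive DT
  | A (n : ℕ) | B (n : ℕ) | C (n : ℕ) | D (n : ℕ) | E6 | E7 | E8 | F4 | G2

namespace DT

/-- The rank. -/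
def rank : DT → ℕ
  | A n => n + 1
  | B n => n + 2
  | C n => n + 3
  | D n => n + 4
  | E6 => 6
  | E7 => 7
  | E8 => 8
  | F4 => 4
  | G2 => 2

/-- The Cartan matrix, with entries `2 (α_i, α_j) / (α_j, α_j)`. -/
def cartan : (t : DT) → Matrix (Fin t.rank) (Fin t.rank) ℤ
  | A n => CartanMatrix.A (n + 1)
  | B n => CartanMatrix.B (n + 2)
  | C n => CartanMatrix.C (n + 3)
  | D n => CartanMatrix.D (n + 4)
  | E6 => CartanMatrix.E₆
  | E7 => CartanMatrix.E₇
  | E8 => CartanMatrix.E₈
  | F4 => CartanMatrix.F₄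
  | G2 => CartanMatrix.G₂

/-- `d_i = (α_i, α_i) / 2`: `1` for the short simple roots (all simple roots in the simply laced
types), `2` for the long ones in types `B, C, F`, and `3` in type `G`. -/
def len : (t : DT) → Fin t.rank → ℕ
  | A _ => fun _ => 1
  | B n => fun i => if i.val = n + 1 then 1 else 2
  | C n => fun i => if i.val = n + 2 then 2 else 1
  | D _ => fun _ => 1
  | E6 => fun _ => 1
  | E7 => fun _ => 1
  | E8 => fun _ => 1
  | F4 => ![2, 2, 1, 1]
  | G2 => ![3, 1]

/-- `(α_i, α_j)`. -/
def form (t : DT) (i j : Fin t.rank) : ℤ := t.cartan i j * t.len j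

end DT

/-- The form of a direct sum of irreducible root systems. -/
def sform {r : ℕ} (t : Fin r → DT) (x y : (k : Fin r) × Fin (t k).rank) : ℤ :=
  if h : y.1 = x.1 then (t x.1).form x.2 (h ▸ y.2) else 0

end J4c
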