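import Mathlib

/-!
MP_4c1f79_al: the graphs of type `A` and `D`, and the dimension tables of the indecomposable good
modules.
-/

set_option autoImplicit false
set_option linter.unusedVariables false

namespace J4c

/-- The path `0 - 1 - ... - (N-1)`. -/
def adjA (N : ℕ) (v w : Fin N) : Prop := v.val + 1 = w.val ∨ w.val + 1 = v.val

/-- The graph `D_N`: the path `0 - 1 - ... - (N-2)` and the edge `(N-3) - (N-1)`. -/
def adjD (N : ℕ) (v w : Fin N) : Prop :=
  (v.val + 1 = w.val ∧ w.val + 1 < N) ∨ (w.val + 1 = v.val ∧ v.val + 1 < N) ∨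
    (v.val + 2 = w.val ∧ w.val + 1 = N) ∨ (w.val + 2 = v.val ∧ v.val + 1 = N)

instance (N : ℕ) : DecidableRel (adjA N) := fun v w => inferInstanceAs (Decidable (_ ∨ _))
instance (N : ℕ) : DecidableRel (adjD N) := fun v w => inferInstanceAs (Decidable (_ ∨ _))

theorem adjA_symm (N : ℕ) : ∀ v w, adjA N v w → adjA N w v := fun _ _ h => h.symm

theorem adjD_symm (N : ℕ) : ∀ v w, adjD N v w → adjD N w v := by
  intro v w h
  unfold adjD at *
  tauto

/-- The table of the path `lo - ... - hi`: the dimension at `v`, `k` levels above the socle, of the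
module with socle at `u` (`lo ≤ u ≤ hi`). -/
def tabA (lo hi u v k : ℕ) : ℕ :=
  if lo ≤ v ∧ v ≤ hi ∧ u ≤ v + k ∧ v ≤ u + k ∧ k + 2 * lo ≤ u + v ∧ k + u + v ≤ 2 * hi ∧
    (k + u + v) % 2 = 0 then 1 else 0

/-- The table of `D_N` (folding of the path `0 - ... - (2 N - 4)`). -/
def tabD (N u v k : ℕ) : ℕ :=
  if u + 2 < N then
    if v + 2 < N then tabA 0 (2 * N - 4) u v k + tabA 0 (2 * N - 4) u (2 * N - 4 - v) k
    else tabA 0 (2 * N - 4) u (N - 2) k
  else
    if v + 2 < N then tabA 0 (2 * N - 4) (N - 2) v k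
    else if (k ≤ 2 * N - 4 ∧ ((u = v ∧ k % 4 = 0) ∨ (u ≠ v ∧ k % 4 = 2))) then 1 else 0

end J4c
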